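import Pool.Agent.H68.TL.Cell
import Pool.Agent.H68.TL.Tensor

/-!
# Finitely supported chains of a cube complex with coefficients in a `Γ`-module
-/

namespace Pool.Agent.H68.FC

open Finset Pool.Agent.H68.TL Pool.Agent.H68.TL.CC

set_option linter.unusedSectionVars false

variable {V X Γ : Type} [DecidableEq V] [Fintype V] [Group Γ] [MulAction Γ X]

/-- finitely supported chains of degree `m` -/
def F (C : CC V X Γ) (M : Type) [AddCommGroup M] [Module (ZMod 2) M] (m : ℕ) :
    Submodule (ZMod 2) (X → Finset V → M) where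
  carrier := {f | (∀ x s, f x s ≠ 0 → C.Clq s ∧ s.card = m) ∧
    (∀ x s v, C.Clq s → v ∈ s → f (C.tau v x) s = f x s) ∧ {x | ∃ s, f x s ≠ 0}.Finite}
  zero_mem' := ⟨fun _ _ h => absurd rfl h, fun _ _ _ _ _ => rfl, by simp⟩
  add_mem' := by
    rintro a b ⟨h1, h2, h3⟩ ⟨h1', h2', h3'⟩
    refine ⟨fun x s h => ?_, fun x s v hs hv => ?_, (h3.union h3').subset ?_⟩
    · by_cases h0 : a x s = 0
      · exact h1' x s (fun h' => h (by simp [h0, h']))
      · exact h1 x s h0
    · simp only [Pi.add_apply]; rw [h2 x s v hs hv, h2' x s v hs hv]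
    · rintro x ⟨s, hs⟩
      by_cases h0 : a x s = 0
      · exact Or.inr ⟨s, fun h' => hs (by simp [h0, h'])⟩
      · exact Or.inl ⟨s, h0⟩
  smul_mem' := by
    rintro c a ⟨h1, h2, h3⟩
    refine ⟨fun x s h => h1 x s (fun h' => h (by simp [h'])), fun x s v hs hv => ?_,
      h3.subset ?_⟩
    · simp only [Pi.smul_apply]; rw [h2 x s v hs hv]
    · rintro x ⟨s, hs⟩
      exact ⟨s, fun h' => hs (by simp [h'])⟩

variable {C : CC V X Γ} {M : Type} [AddCommGroup M] [Module (ZMod 2) M]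

lemma F_supp {m : ℕ} {f : X → Finset V → M} (h : f ∈ F C M m) {x : X} {s : Finset V}
    (h0 : f x s ≠ 0) : C.Clq s ∧ s.card = m := h.1 x s h0

lemma F_zero {m : ℕ} {f : X → Finset V → M} (h : f ∈ F C M m) {s : Finset V}
    (h0 : ¬ (C.Clq s ∧ s.card = m)) (x : X) : f x s = 0 := by
  by_contra h1; exact h0 (h.1 x s h1)

lemma F_tau {m : ℕ} {f : X → Finset V → M} (h : f ∈ F C M m) {s : Finset V}
    (hs : C.Clq s) {v : V} (hv : v ∈ s) (x : X) : f (C.tau v x) s = f x s := h.2.1 x s v hs hv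

lemma F_fin {m : ℕ} {f : X → Finset V → M} (h : f ∈ F C M m) : {x | ∃ s, f x s ≠ 0}.Finite :=
  h.2.2

lemma F_bdy {m : ℕ} {f : X → Finset V → M} (h : f ∈ F C M (m + 1)) : bdy f ∈ F C M m := by
  refine ⟨fun x s h0 => ?_, fun x s u hs hu => ?_, (F_fin h).subset ?_⟩
  · rw [bdy_apply] at h0
    obtain ⟨v, hv, hv2⟩ := exists_ne_zero_of_sum_ne_zero h0
    have h1 := F_supp h hv2
    refine ⟨h1.1.mono (subset_insert v s), ?_⟩
    have := h1.2
    rw [card_insert_of_notMem (by simpa using hv)] at this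
    omega
  · rw [bdy_apply, bdy_apply]
    refine sum_congr rfl fun v _ => ?_
    by_cases hc : C.Clq (insert v s)
    · exact F_tau h hc (mem_insert_of_mem hu) x
    · rw [F_zero h (fun h' => hc h'.1), F_zero h (fun h' => hc h'.1)]
  · rintro x ⟨s, hs⟩
    rw [bdy_apply] at hs
    obtain ⟨v, _, hv2⟩ := exists_ne_zero_of_sum_ne_zero hs
    exact ⟨_, hv2⟩

/-- exactness with coefficients in `M` -/
structure Exact (C : CC V X Γ) (M : Type) [AddCommGroup M] [Module (ZMod 2) M] : Prop where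
  pos : ∀ m, ∀ f ∈ F C M (m + 1), bdy f = 0 → ∃ g ∈ F C M (m + 1 + 1), bdy g = f
  zero : ∀ f ∈ F C M 0, ∑ᶠ x, f x ∅ = 0 → ∃ g ∈ F C M 1, bdy g = f

section coeff

variable {ι : Type} (b : Module.Basis ι (ZMod 2) M)

/-- a coordinate of a chain -/
noncomputable def coo (j : ι) (f : X → Finset V → M) : X → Finset V → ZMod 2 :=
  fun x s => b.repr (f x s) j

lemma coo_mem {m : ℕ} {f : X → Finset V → M} (h : f ∈ F C M m) (j : ι) :
    coo b j f ∈ F C (ZMod 2) m := by
  refine ⟨fun x s h0 => ?_, fun x s u hs hu => ?_, (F_fin h).subset ?_⟩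
  · exact F_supp (x := x) h (fun h1 => h0 (by unfold coo; rw [h1]; simp))
  · unfold coo; rw [F_tau h hs hu]
  · rintro x ⟨s, hs⟩
    exact ⟨s, fun h1 => hs (by unfold coo; rw [h1]; simp)⟩

lemma bd_coo (j : ι) (f : X → Finset V → M) : bdy (coo b j f) = coo b j (bdy f) := by
  funext x s
  rw [bdy_apply]
  unfold coo
  rw [bdy_apply, map_sum, Finsupp.finsetSum_apply]

/-- finitely many coordinates are involved -/
lemma exists_J {m : ℕ} {f : X → Finset V → M} (h : f ∈ F C M m) :
    ∃ J : Finset ι, ∀ j, j ∉ J → coo b j f = 0 := by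
  classical
  refine ⟨(F_fin h).toFinset.biUnion (fun x => univ.biUnion (fun s : Finset V =>
    (b.repr (f x s)).support)), fun j hj => ?_⟩
  funext x s
  by_contra h0
  apply hj
  have h1 : f x s ≠ 0 := fun h' => h0 (by unfold coo; rw [h']; simp)
  rw [mem_biUnion]
  refine ⟨x, (F_fin h).mem_toFinset.2 ⟨s, h1⟩, ?_⟩
  rw [mem_biUnion]
  exact ⟨s, mem_univ _, Finsupp.mem_support_iff.2 h0⟩

/-- recombination -/
lemma recomb {m : ℕ} {f : X → Finset V → M} (J : Finset ι) (hJ : ∀ j, j ∉ J → coo b j f = 0)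
    (g : ι → X → Finset V → ZMod 2) (hg : ∀ j, g j ∈ F C (ZMod 2) (m + 1))
    (hgf : ∀ j, bdy (g j) = coo b j f) :
    ∃ G ∈ F C M (m + 1), bdy G = f := by
  classical
  refine ⟨fun x s => ∑ j ∈ J, g j x s • b j, ?_, ?_⟩
  · have : (fun x s => ∑ j ∈ J, g j x s • b j) = ∑ j ∈ J, (fun x s => g j x s • b j) := by
      funext x s
      simp [Finset.sum_apply]
    rw [this]
    refine Submodule.sum_mem _ (fun j _ => ?_)
    refine ⟨fun x s h0 => ?_, fun x s u hs hu => ?_, (F_fin (hg j)).subset ?_⟩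
    · exact F_supp (x := x) (hg j) (fun h1 => h0 (by simp only [h1, zero_smul]))
    · simp only [F_tau (hg j) hs hu]
    · rintro x ⟨s, hs⟩
      exact ⟨s, fun h1 => hs (by simp only [h1, zero_smul])⟩
  · funext x s
    rw [bdy_apply, sum_comm]
    have h1 : ∀ j ∈ J, ∑ v ∈ univ.filter (· ∉ s), g j x (insert v s) • b j =
        b.repr (f x s) j • b j := by
      intro j _
      rw [← sum_smul, ← bdy_apply, hgf]
      rfl
    rw [sum_congr rfl h1]
    conv_rhs => rw [← b.linearCombination_repr (f x s)]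
    rw [Finsupp.linearCombination_apply, Finsupp.sum]
    symm
    refine sum_subset ?_ ?_
    · intro j hj
      by_contra h0
      have := congrFun (congrFun (hJ j h0) x) s
      exact (Finsupp.mem_support_iff.1 hj) this
    · intro j _ hj
      rw [Finsupp.notMem_support_iff.1 hj, zero_smul]

lemma finsum_coo {f : X → Finset V → M} {m : ℕ} (h : f ∈ F C M m) (j : ι) :
    ∑ᶠ x, coo b j f x ∅ = b.repr (∑ᶠ x, f x ∅) j := by
  have hfin : (Function.support (fun x => f x ∅)).Finite :=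
    (F_fin h).subset (fun x hx => ⟨∅, hx⟩)
  let φ : M →+ ZMod 2 := ((Finsupp.lapply j).comp b.repr.toLinearMap).toAddMonoidHom
  have := φ.map_finsum hfin
  exact this.symm

end coeff

/-- exactness for all coefficients -/
theorem Exact.coeff (hE : Exact C (ZMod 2)) (M : Type) [AddCommGroup M] [Module (ZMod 2) M] :
    Exact C M := by
  let b := Module.Basis.ofVectorSpace (ZMod 2) M
  constructor
  · intro m f hf hbf
    obtain ⟨J, hJ⟩ := exists_J b hf
    have h1 : ∀ j, ∃ g ∈ F C (ZMod 2) (m + 1 + 1), bdy g = coo b j f := fun j =>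
      hE.pos m _ (coo_mem b hf j) (by rw [bd_coo, hbf]; funext x s; simp [coo])
    choose g hg hgf using h1
    exact recomb b J hJ g hg hgf
  · intro f hf hs
    obtain ⟨J, hJ⟩ := exists_J b hf
    have h1 : ∀ j, ∃ g ∈ F C (ZMod 2) 1, bdy g = coo b j f := fun j =>
      hE.zero _ (coo_mem b hf j) (by rw [finsum_coo b hf, hs]; simp)
    choose g hg hgf using h1
    exact recomb b J hJ g hg hgf

end Pool.Agent.H68.FC
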